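import Pool.Agent.U111.GJump

set_option autoImplicit false

/-!
# A double group jump which is not a single group jump

For infinite countable groups `G` and `H` and the equality relation on a Polish space `X` with at
least two points, the iterated jump `((=_X)^[G])^[H]` is the orbit equivalence relation of the full
(unrestricted) wreath product of `G` by `H` on `X^(G × H)`. A Baire category argument shows that it is
not Borel reducible to any equivalence relation with countable classes, whereas every jump
`(=_X)^[K]` by a countable group `K` has countable classes.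
-/

namespace Pool.Agent.Results.MP_9b97c3_lc.NoSingleJump

open Set Pool.Agent.U111.GJump

universe u v w z

/-- The `G`-jump `E^[G]` of an equivalence relation `E` on `X`: the relation on `X^G` given by
`α E^[G] β` iff there is `g ∈ G` with `α (g⁻¹ h) E β h` for all `h ∈ G`. -/
def jump (G : Type u) [Group G] {X : Type v} (E : Setoid X) : Setoid (G → X) where
  r α β := ∃ g : G, ∀ h : G, E (α (g⁻¹ * h)) (β h)
  iseqv :=
    { refl := fun α => ⟨1, fun h => by simp⟩
      symm := by
        rintro α β ⟨g, hg⟩
        refine ⟨g⁻¹, fun h => ?_⟩
        have := hg (g * h)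
        rw [inv_mul_cancel_left] at this
        rw [inv_inv]
        exact E.symm this
      trans := by
        rintro α β γ ⟨g, hg⟩ ⟨g', hg'⟩
        refine ⟨g' * g, fun h => ?_⟩
        have h1 := hg (g'⁻¹ * h)
        have h2 := hg' h
        rw [mul_inv_rev, mul_assoc]
        exact E.trans h1 h2 }

/-- `E ≤_B F`: there is a Borel map `f` with `x E x' ↔ f x F f x'`. -/
def BorelReducible {X : Type u} {Y : Type v} [TopologicalSpace X] [TopologicalSpace Y]
    (E : Setoid X) (F : Setoid Y) : Prop :=
  ∃ f : X → Y, @Measurable X Y (borel X) (borel Y) f ∧ ∀ x x' : X, E x x' ↔ F (f x) (f x')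

/-- Borel bi-reducibility. -/
def BorelBireducible {X : Type u} {Y : Type v} [TopologicalSpace X] [TopologicalSpace Y]
    (E : Setoid X) (F : Setoid Y) : Prop :=
  BorelReducible E F ∧ BorelReducible F E

theorem jump_bot_countable (K : Type u) [Group K] [Countable K] {X : Type v} (α : K → X) :
    {β | jump K (⊥ : Setoid X) α β}.Countable := by
  refine (countable_range fun k : K => fun h => α (k⁻¹ * h)).mono ?_
  rintro β ⟨k, hk⟩
  exact ⟨k, funext hk⟩

theorem not_reducible (G H : Type) [Group G] [Countable G] [Infinite G] [Group H] [Countable H]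
    [Infinite H] (X : Type v) [TopologicalSpace X] [Nontrivial X]
    (Y : Type) [TopologicalSpace Y] [PolishSpace Y] (F : Setoid Y)
    (hF : ∀ y : Y, {z | F y z}.Countable) :
    ¬ BorelReducible (jump H (jump G (⊥ : Setoid X))) F := by
  rintro ⟨f, hf, hred⟩
  obtain ⟨a, b, hab⟩ := exists_pair_ne X
  let j : Bool → X := fun t => if t then a else b
  have hj : Function.Injective j := by
    intro s t h
    cases s <;> cases t <;> simp_all [j]
  let J : W G H → (H → G → X) := fun w h g => j (w h g)
  have hJc : Continuous J := continuous_pi fun h => continuous_pi fun g =>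
    (continuous_of_discreteTopology (f := j)).comp
      ((continuous_apply g).comp (continuous_apply h))
  let _ : MeasurableSpace Y := borel Y
  have : BorelSpace Y := ⟨rfl⟩
  let _ : MeasurableSpace (W G H) := borel _
  have : BorelSpace (W G H) := ⟨rfl⟩
  have hfJ : Measurable fun w : W G H => f (J w) := by
    let _ : MeasurableSpace (H → G → X) := borel _
    have : BorelSpace (H → G → X) := ⟨rfl⟩
    exact Measurable.comp hf hJc.measurable
  refine main (fun w : W G H => f (J w)) hfJ ?_
    (fun v w => jump H (jump G (⊥ : Setoid X)) (J v) (J w)) ?_ ?_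
  · intro w
    refine (hF (f (J w))).mono ?_
    rintro _ ⟨p, rfl⟩
    refine (hred _ _).1 ⟨1, fun h => ⟨p h, fun g => ?_⟩⟩
    change j (w (1⁻¹ * h) ((p h)⁻¹ * g)) = j (w h ((p h)⁻¹ * g))
    simp
  · intro v w h
    refine (hred _ _).2 ?_
    have h' : f (J v) = f (J w) := h
    rw [h']
  · intro v h
    refine (countable_range fun q : H × G => fun g => v (q.1⁻¹ * h) (q.2⁻¹ * g)).mono ?_
    rintro u ⟨w, ⟨h0, hw⟩, rfl⟩
    obtain ⟨g0, hg0⟩ := hw h
    refine ⟨(h0, g0), funext fun g => ?_⟩
    exact hj (hg0 g)

/-- **Iterated group jumps need not be single group jumps.** Let `G`, `H` be infinite countable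
groups and let `X` be a Polish space with at least two points. Then `((=_X)^[G])^[H]` is not Borel
reducible to any equivalence relation on a Polish space all of whose classes are countable. In
particular it is not Borel reducible to `(=_Z)^[K]` for any Polish space `Z` and any countable group
`K`, and so it is not Borel bi-reducible with `(=_X)^[K]` for any countable group `K`. -/
theorem result (G H : Type) [Group G] [Countable G] [Infinite G] [Group H] [Countable H]
    [Infinite H] (X : Type) [TopologicalSpace X] [PolishSpace X] [Nontrivial X] :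
    (∀ (Y : Type) [TopologicalSpace Y] [PolishSpace Y] (F : Setoid Y),
      (∀ y : Y, {z | F y z}.Countable) →
        ¬ BorelReducible (jump H (jump G (⊥ : Setoid X))) F) ∧
    (∀ (K : Type) [Group K] [Countable K] (Z : Type) [TopologicalSpace Z] [PolishSpace Z],
      ¬ BorelReducible (jump H (jump G (⊥ : Setoid X))) (jump K (⊥ : Setoid Z))) ∧
    (∀ (K : Type) [Group K] [Countable K],
      ¬ BorelBireducible (jump H (jump G (⊥ : Setoid X))) (jump K (⊥ : Setoid X))) := by
  refine ⟨fun Y _ _ F hF => not_reducible G H X Y F hF, fun K _ _ Z _ _ => ?_,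
    fun K _ _ h => ?_⟩
  · exact not_reducible G H X (K → Z) _ (jump_bot_countable K)
  · exact not_reducible G H X (K → X) _ (jump_bot_countable K) h.1

end Pool.Agent.Results.MP_9b97c3_lc.NoSingleJump
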